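import Pool.Agent.TH958.T6.Fin
import Pool.Agent.TH115.GD.Gal

/-!
Kummer extensions, and descent of sums of points.
-/

set_option autoImplicit false
set_option linter.all false
set_option maxHeartbeats 4000000

open Polynomial WeierstrassCurve WeierstrassCurve.Affine

namespace Pool.Agent.TH958.T7

section kummer

variable {K : Type} [Field K]

theorem eval_eq {L : Type} [Field L] [Algebra K L] (e : ℕ) (h : K) (g : L) :
    eval g ((X ^ e - C h : K[X]).map (algebraMap K L)) = g ^ e - algebraMap K L h := by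
  rw [Polynomial.map_sub, Polynomial.map_pow, map_X, map_C, eval_sub, eval_pow, eval_X, eval_C]

theorem aeval_eq {L : Type} [Field L] [Algebra K L] (e : ℕ) (h : K) (g : L) :
    aeval g (X ^ e - C h : K[X]) = g ^ e - algebraMap K L h := by
  rw [map_sub, map_pow, aeval_X, aeval_C]

/-- The field generated by an `e`-th root of `h`. -/
theorem kummer {e : ℕ} (he : 0 < e) (heK : (e : K) ≠ 0) {ε : K} (hε : IsPrimitiveRoot ε e) {h : K}
    (hh : h ≠ 0) :
    ∃ (L : Type) (_ : Field L) (_ : Algebra K L) (g : L), FiniteDimensional K L ∧ IsGalois K L ∧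
      g ^ e = algebraMap K L h ∧
      (∀ σ : L ≃ₐ[K] L, ∃ η : K, η ^ e = 1 ∧ σ g = algebraMap K L η * g) ∧
      ∀ l : ℕ, l.Prime → ¬ l ∣ e → ¬ l ∣ Module.finrank K L := by
  set p : K[X] := X ^ e - C h with hp
  have hsep : p.Separable := separable_X_pow_sub_C h heK hh
  have hfd : FiniteDimensional K p.SplittingField := inferInstance
  have hgal : IsGalois K p.SplittingField := IsGalois.of_separable_splitting_field hsep
  obtain ⟨g, hg⟩ : ∃ g : p.SplittingField, g ^ e = algebraMap K p.SplittingField h := by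
    have hs := Polynomial.SplittingField.splits p
    have hd : (p.map (algebraMap K p.SplittingField)).degree ≠ 0 := by
      rw [degree_map, hp, degree_X_pow_sub_C he]
      exact_mod_cast he.ne'
    obtain ⟨g, hg⟩ := hs.exists_eval_eq_zero hd
    exact ⟨g, sub_eq_zero.1 ((eval_eq e h g).symm.trans hg)⟩
  have hg0 : g ≠ 0 := by
    rintro rfl
    rw [zero_pow he.ne'] at hg
    exact hh ((map_eq_zero _).1 hg.symm)
  have hε' : IsPrimitiveRoot (algebraMap K p.SplittingField ε) e :=
    hε.map_of_injective (algebraMap K p.SplittingField).injective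
  have key : ∀ r : p.SplittingField, r ^ e = algebraMap K p.SplittingField h →
      ∃ η : K, η ^ e = 1 ∧ r = algebraMap K p.SplittingField η * g := by
    intro r hr
    have h1 : (r / g) ^ e = 1 := by
      rw [div_pow, hr, hg, div_self]
      rw [← hg]
      exact pow_ne_zero e hg0
    haveI : NeZero e := ⟨he.ne'⟩
    obtain ⟨i, -, hi⟩ := hε'.eq_pow_of_pow_eq_one h1
    refine ⟨ε ^ i, by rw [← pow_mul, mul_comm, pow_mul, hε.pow_eq_one, one_pow], ?_⟩
    rw [map_pow, hi, div_mul_cancel₀ _ hg0]
  have hgal2 : ∀ σ : p.SplittingField ≃ₐ[K] p.SplittingField, ∃ η : K, η ^ e = 1 ∧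
      σ g = algebraMap K p.SplittingField η * g := by
    intro σ
    apply key
    rw [← map_pow, hg, σ.commutes]
  refine ⟨p.SplittingField, inferInstance, inferInstance, g, hfd, hgal, hg, hgal2, ?_⟩
  intro l hl hle hdvd
  rw [← IsGalois.card_aut_eq_finrank] at hdvd
  haveI : Fact l.Prime := ⟨hl⟩
  obtain ⟨σ, hσ⟩ := exists_prime_orderOf_dvd_card' (G := (p.SplittingField ≃ₐ[K] p.SplittingField))
    l hdvd
  apply hle
  rw [← hσ]
  apply orderOf_dvd_of_pow_eq_one
  obtain ⟨η, hη, hση⟩ := hgal2 σ
  have hn : ∀ n : ℕ, (σ ^ n) g = algebraMap K p.SplittingField (η ^ n) * g := by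
    intro n
    induction n with
    | zero => rw [pow_zero, pow_zero, map_one, one_mul]; rfl
    | succ n ih =>
      rw [pow_succ, AlgEquiv.mul_apply, hση, map_mul, AlgEquiv.commutes, ih, pow_succ, map_mul]
      ring
  have hge : (σ ^ e) g = g := by rw [hn, hη, map_one, one_mul]
  have h5 : (σ ^ e).toAlgHom = AlgHom.id K p.SplittingField := by
    apply AlgHom.ext_of_adjoin_eq_top (Polynomial.SplittingField.adjoin_rootSet p)
    intro r hr
    have h7 : r ^ e = algebraMap K p.SplittingField h :=
      sub_eq_zero.1 ((aeval_eq e h r).symm.trans (mem_rootSet.1 hr).2)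
    obtain ⟨η', -, rfl⟩ := key r h7
    show (σ ^ e) _ = _
    rw [map_mul, AlgEquiv.commutes, hge]
    rfl
  exact AlgEquiv.ext fun x => congrArg (fun φ : p.SplittingField →ₐ[K] p.SplittingField => φ x) h5

end kummer

end Pool.Agent.TH958.T7
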