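import Pool.Agent.TH958.T7.Kum

/-!
Independent points on `y ^ 2 = x ^ 3 + (3 x + 4 (1 - h ^ d)) ^ 2`, `d` a divisor of `p ^ ν + 1`.
-/

set_option autoImplicit false
set_option linter.all false
set_option maxHeartbeats 4000000

open WeierstrassCurve WeierstrassCurve.Affine Polynomial FF
open scoped Classical

namespace Pool.Agent.TH958.T7

open Pool.Agent.W343.BSD Pool.Agent.W309.RK
open Pool.Agent.W313.Gr (curve)
open Pool.Agent.TH639.B3 (curve_eq)
open Pool.Agent.TH958.T3 (TD IsMul val val_zero val_ne Lam Lam_some Lam_add three_tors)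
open Pool.Agent.TH958.T4 (ord_sub_const ord_shift ord_of_zero ne_of_pos ord_nonneg_sub ord_one_sub
  ord_one_sub' ord_one_add ord_one_add')
open Pool.Agent.TH958.T6
open Pool.Agent.TH115.GD (Pt act incl rs act_some fixed_point)

section gen

variable {F : Type} [Field F]

/-- The descent map on the points of any Weierstrass curve. -/
noncomputable def Lm (W : WeierstrassCurve F) (ψ : F → ZMod 3) (α β c : F) :
    W.toAffine.Point → ZMod 3
  | Point.zero => 0
  | Point.some x y _ => val ψ α β (x - c) y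

theorem Lm_add {W : WeierstrassCurve F} {a b α β c : F} (hW : W = curve a b) {ψ : F → ZMod 3}
    (hψ : IsMul ψ) (h2 : (2 : F) ≠ 0) (hβ : β ≠ 0) (T : TD a b α β c) (P Q : W.toAffine.Point) :
    Lm W ψ α β c (P + Q) = Lm W ψ α β c P + Lm W ψ α β c Q := by
  subst hW
  have e : ∀ R : (curve a b).toAffine.Point, Lm (curve a b) ψ α β c R = Lam ψ a b α β c R := by
    intro R
    rcases R with _ | ⟨x, y, h⟩
    · rfl
    · rfl
  rw [e, e, e]
  exact Lam_add hψ h2 hβ T P Q

/-- The descent homomorphism. -/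
noncomputable def lmHom {W : WeierstrassCurve F} {a b α β c : F} (hW : W = curve a b)
    {ψ : F → ZMod 3} (hψ : IsMul ψ) (h2 : (2 : F) ≠ 0) (hβ : β ≠ 0) (T : TD a b α β c) :
    W.toAffine.Point →+ ZMod 3 where
  toFun := Lm W ψ α β c
  map_zero' := rfl
  map_add' := Lm_add hW hψ h2 hβ T

theorem tors_val' {k : Type} [Field k] [Algebra k F] (h6 : (6 : k) ≠ 0)
    {W : WeierstrassCurve F} {a b B : F} (hW : W = curve a b) {v : Place k F}
    (hB : v.ord B < 0) (hB3 : ¬ (3 : ℤ) ∣ v.ord B) (T : TD a b 3 B 3) {ψ : F → ZMod 3}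
    (hv : ψ (-(2 * B)) ≠ 0) (P : W.toAffine.Point) (hP : (3 : ℤ) • P = 0)
    (h0 : Lm W ψ 3 B 3 P = 0) : P = 0 := by
  subst hW
  have e : Lm (curve a b) ψ 3 B 3 P = Lam ψ a b 3 B 3 P := by
    rcases P with _ | ⟨x, y, h⟩
    · rfl
    · rfl
  rw [e] at h0
  exact tors_val h6 hB hB3 T hv P hP h0

theorem delta_ne {W : WeierstrassCurve F} {a b : F} (hW : W = curve a b) (h2 : (2 : F) ≠ 0)
    (hΔ : 4 * a ^ 3 + 27 * b ^ 2 ≠ 0) : W.toAffine.Δ ≠ 0 := by
  subst hW
  have e : (curve a b).toAffine.Δ = -(2 ^ 4 * (4 * a ^ 3 + 27 * b ^ 2)) := by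
    simp only [W313.Gr.curve, WeierstrassCurve.toAffine, WeierstrassCurve.Δ, WeierstrassCurve.b₂,
      WeierstrassCurve.b₄, WeierstrassCurve.b₆, WeierstrassCurve.b₈]
    ring
  rw [e]
  exact neg_ne_zero.2 (mul_ne_zero (pow_ne_zero 4 h2) hΔ)

theorem nons {W : WeierstrassCurve F} {a b x y : F} (hW : W = curve a b) (h2 : (2 : F) ≠ 0)
    (hΔ : 4 * a ^ 3 + 27 * b ^ 2 ≠ 0) (h : y ^ 2 = x ^ 3 + a * x + b) :
    W.toAffine.Nonsingular x y := by
  have hd := delta_ne hW h2 hΔ
  subst hW
  exact (equation_iff_nonsingular_of_Δ_ne_zero hd).1 ((curve_eq a b x y).2 h)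

end gen

section norm

variable {K L : Type} [Field K] [Field L] [Algebra K L] [FiniteDimensional K L]

/-- A homomorphism on `K` extends to `L` if the degree is prime to three. -/
noncomputable def ext3 (L : Type) [Field L] [Algebra K L] (ψ : K → ZMod 3) (x : L) : ZMod 3 :=
  ((Module.finrank K L : ℕ) : ZMod 3)⁻¹ * ψ (Algebra.norm K x)

theorem ext3_mul {ψ : K → ZMod 3} (hψ : IsMul ψ) : IsMul (ext3 L ψ) := by
  intro x y hx hy
  unfold ext3
  rw [map_mul, hψ _ _ (Algebra.norm_ne_zero_iff.2 hx) (Algebra.norm_ne_zero_iff.2 hy)]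
  ring

theorem isMul_pow {ψ : K → ZMod 3} (hψ : IsMul ψ) {x : K} (hx : x ≠ 0) (n : ℕ) :
    ψ (x ^ n) = n * ψ x := by
  induction n with
  | zero => rw [pow_zero, hψ.one, Nat.cast_zero, zero_mul]
  | succ n ih =>
    rw [pow_succ, hψ _ _ (pow_ne_zero n hx) hx, ih]
    push_cast
    ring

theorem ext3_alg (hL : ¬ 3 ∣ Module.finrank K L) {ψ : K → ZMod 3} (hψ : IsMul ψ) {x : K}
    (hx : x ≠ 0) : ext3 L ψ (algebraMap K L x) = ψ x := by
  haveI : Fact (Nat.Prime 3) := ⟨Nat.prime_three⟩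
  unfold ext3
  rw [Algebra.norm_algebraMap, isMul_pow hψ hx, ← mul_assoc, inv_mul_cancel₀, one_mul]
  intro h0
  exact hL ((ZMod.natCast_eq_zero_iff _ _).1 h0)

theorem val_alg (hL : ¬ 3 ∣ Module.finrank K L) {ψ : K → ZMod 3} (hψ : IsMul ψ) (h2 : (2 : K) ≠ 0)
    {α β x y : K} (hβ : β ≠ 0) :
    val (ext3 L ψ) (algebraMap K L α) (algebraMap K L β) (algebraMap K L x) (algebraMap K L y) =
      val ψ α β x y := by
  have e : algebraMap K L y - (algebraMap K L α * algebraMap K L x + algebraMap K L β) =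
      algebraMap K L (y - (α * x + β)) := by
    rw [map_sub, map_add, map_mul]
  by_cases h : y - (α * x + β) = 0
  · rw [val_zero h, val_zero (by rw [e, h, map_zero])]
    have e2 : -(2 * algebraMap K L β) = algebraMap K L (-(2 * β)) := by
      rw [map_neg, map_mul, map_ofNat]
    rw [e2, ext3_alg hL hψ (neg_ne_zero.2 (mul_ne_zero h2 hβ))]
  · rw [val_ne h, val_ne (by rw [e]; exact (_root_.map_ne_zero _).2 h), e, ext3_alg hL hψ h]

end norm

section low

variable {k K : Type} [Field k] [Field K] [Algebra k K]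

/-- `x ^ e - 1` in terms of the roots of unity, with inverses -/
theorem prod_eta {k : Type} [Field k] {L : Type} [Field L] [Algebra k L] {e : ℕ} (he : 0 < e)
    {ε : k} (hε : IsPrimitiveRoot ε e) (x : L) :
    ∃ c : k, c ≠ 0 ∧ ∏ η ∈ nthRootsFinset e (1 : k), (algebraMap k L η * x - 1) =
      algebraMap k L c * (x ^ e - 1) := by
  have h1 := T4.fac_sub he hε x
  have hη0 : ∀ η ∈ nthRootsFinset e (1 : k), η ≠ 0 := by
    intro η hη h0
    have := (mem_nthRootsFinset he 1).1 hη
    rw [h0, zero_pow he.ne'] at this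
    exact zero_ne_one this
  have h2 : ∏ η ∈ nthRootsFinset e (1 : k), (algebraMap k L η * x - 1) =
      ∏ η ∈ nthRootsFinset e (1 : k), (algebraMap k L η⁻¹ * x - 1) := by
    refine Finset.prod_nbij' (fun η => η⁻¹) (fun η => η⁻¹) ?_ ?_ ?_ ?_ ?_
    · intro η hη
      rw [mem_nthRootsFinset he] at hη ⊢
      rw [inv_pow, hη, inv_one]
    · intro η hη
      rw [mem_nthRootsFinset he] at hη ⊢
      rw [inv_pow, hη, inv_one]
    · intro η _
      exact inv_inv η
    · intro η _
      exact inv_inv η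
    · intro η _
      rw [inv_inv]
  refine ⟨∏ η ∈ nthRootsFinset e (1 : k), η⁻¹, Finset.prod_ne_zero_iff.2 fun η hη =>
    inv_ne_zero (hη0 η hη), ?_⟩
  rw [h2, h1, map_prod, ← Finset.prod_mul_distrib]
  refine Finset.prod_congr rfl fun η hη => ?_
  have hinv : algebraMap k L η⁻¹ * algebraMap k L η = 1 := by
    rw [← map_mul, inv_mul_cancel₀ (hη0 η hη), map_one]
  linear_combination hinv

/-- sums of a function over the cosets of the roots of unity -/
theorem sum_shift {k A : Type} [Field k] [AddCommMonoid A] {e : ℕ} (he : 0 < e) (f : k → A)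
    {η₀ : k} (h0 : η₀ ^ e = 1) (t : k) :
    ∑ η ∈ nthRootsFinset e (1 : k), f (t * η * η₀) = ∑ η ∈ nthRootsFinset e (1 : k), f (t * η) := by
  have hne : η₀ ≠ 0 := by
    rintro rfl
    rw [zero_pow he.ne'] at h0
    exact zero_ne_one h0
  refine Finset.sum_nbij' (fun η => η * η₀) (fun η => η * η₀⁻¹) ?_ ?_ ?_ ?_ ?_
  · intro η hη
    rw [mem_nthRootsFinset he] at hη ⊢
    rw [mul_pow, hη, h0, one_mul]
  · intro η hη
    rw [mem_nthRootsFinset he] at hη ⊢
    rw [mul_pow, hη, inv_pow, h0, inv_one, one_mul]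
  · intro η _
    show η * η₀ * η₀⁻¹ = η
    rw [mul_assoc, mul_inv_cancel₀ hne, mul_one]
  · intro η _
    show η * η₀⁻¹ * η₀ = η
    rw [mul_assoc, inv_mul_cancel₀ hne, mul_one]
  · intro η _
    show f (t * η * η₀) = f (t * (η * η₀))
    rw [mul_assoc]

/-- The points over `K`: for every `z` with `z ^ d = 1` there is a point whose image under the
descent map given by a homomorphism `ψ` on `K` which is trivial on the constants is
`ψ (h - z)`. -/
theorem points (h6 : (6 : k) ≠ 0) {p : ℕ} [Fact p.Prime] [CharP k p] {ν m e d : ℕ} (hm0 : 0 < m)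
    (hm : p ^ ν = 3 * m + 1) (hed : p ^ ν + 1 = d * e) {ω : k}
    (hω : IsPrimitiveRoot ω (p ^ ν + 1)) {h : K} (hh : Transcendental k h)
    (hΔ : 4 * aS d h ^ 3 + 27 * bS d h ^ 2 ≠ 0) (hβ : bet d h ≠ 0) {z : k} (hz : z ^ d = 1) :
    ∃ R : Pt (curve (aS d h) (bS d h)) K, ∀ ψ : K → ZMod 3, IsMul ψ →
      (∀ c : k, c ≠ 0 → ψ (algebraMap k K c) = 0) →
      Lm ((curve (aS d h) (bS d h)).baseChange K) ψ 3 (bet d h) 3 R =
        ψ (h - algebraMap k K z) := by
  have h2 : (2 : k) ≠ 0 := fun e => h6 (by linear_combination 3 * e)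
  have h3 : (3 : k) ≠ 0 := fun e => h6 (by linear_combination 2 * e)
  have h8 : (8 : k) ≠ 0 := by
    have : (8 : k) = 2 ^ 3 := by norm_num
    rw [this]
    exact pow_ne_zero 3 h2
  have hprod : 0 < d * e := by omega
  have hd : 0 < d := Nat.pos_of_mul_pos_right hprod
  have he : 0 < e := Nat.pos_of_mul_pos_left hprod
  have hε : IsPrimitiveRoot (ω ^ d) e := hω.pow (by omega) hed
  have hδ : IsPrimitiveRoot (ω ^ e) d := hω.pow (by omega) (by rw [hed, mul_comm])
  have hpe : ¬ p ∣ e := by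
    intro hd'
    have h1 : p ∣ p ^ ν + 1 := by rw [hed]; exact hd'.mul_left d
    have hν : ν ≠ 0 := by
      rintro rfl
      rw [pow_zero] at hm
      omega
    have h3 : p ∣ 1 := (Nat.dvd_add_right (dvd_pow_self p hν)).1 h1
    exact (Fact.out : p.Prime).one_lt.ne' (Nat.dvd_one.1 h3)
  haveI : CharP K p := charP_of_injective_ringHom (algebraMap k K).injective p
  have heK : (e : K) ≠ 0 := by
    rw [Ne, CharP.cast_eq_zero_iff K p]
    exact hpe
  have h3e : ¬ 3 ∣ e := by
    intro h3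
    have : 3 ∣ p ^ ν + 1 := by rw [hed]; exact h3.mul_left d
    omega
  have hh0 : h ≠ 0 := by
    rintro rfl
    exact hh isAlgebraic_zero
  have hεK : IsPrimitiveRoot (algebraMap k K (ω ^ d)) e :=
    hε.map_of_injective (algebraMap k K).injective
  obtain ⟨L, iF, iA, g, iFD, iG, hg, hσ, hfin⟩ := kummer he heK hεK hh0
  have hL3 : ¬ 3 ∣ Module.finrank K L := hfin 3 Nat.prime_three h3e
  letI : Algebra k L := ((algebraMap K L).comp (algebraMap k K)).toAlgebra
  haveI : IsScalarTower k K L := IsScalarTower.of_algebraMap_eq' rfl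
  haveI : CharP L p := charP_of_injective_ringHom (algebraMap k L).injective p
  have hkL : ∀ c : k, algebraMap k L c = algebraMap K L (algebraMap k K c) := fun c => rfl
  have h2L : (2 : L) ≠ 0 := by
    have : algebraMap k L 2 ≠ 0 := by simpa using h2
    rwa [map_ofNat] at this
  have h2K : (2 : K) ≠ 0 := by
    have : algebraMap k K 2 ≠ 0 := by simpa using h2
    rwa [map_ofNat] at this
  -- `g` is transcendental
  have hgt : Transcendental k g := by
    intro hal
    apply hh
    have h5 : IsAlgebraic k (algebraMap K L h) := by rw [← hg]; exact hal.pow e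
    exact (isAlgebraic_algebraMap_iff (algebraMap K L).injective).1 h5
  have hzt : ∀ t : k, t ≠ 0 → Transcendental k (algebraMap k L t * g - 1) := by
    intro t ht hal
    apply hgt
    have h5 : IsAlgebraic k (algebraMap k L t * g) := by
      have := hal.add (isAlgebraic_one (R := k) (A := L))
      rwa [sub_add_cancel] at this
    have h7 : g = algebraMap k L t⁻¹ * (algebraMap k L t * g) := by
      rw [← mul_assoc, ← map_mul, inv_mul_cancel₀ ht, map_one, one_mul]
    rw [h7]
    exact (isAlgebraic_algebraMap _).mul h5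
  set W := curve (aS d h) (bS d h) with hWdef
  have hgQ : ∀ (x : K), x = h → (algebraMap K L x) ^ d = g ^ (p ^ ν + 1) := by
    rintro x rfl
    rw [← hg, ← pow_mul, hed, mul_comm]
  have hA : algebraMap K L (aS d h) = aS (p ^ ν + 1) g := by
    unfold aS
    rw [map_neg, map_add, map_mul, map_pow, map_ofNat, map_ofNat, hgQ h rfl]
  have hB : algebraMap K L (bS d h) = bS (p ^ ν + 1) g := by
    unfold bS
    rw [map_sub, map_add, map_mul, map_mul, map_pow, map_pow, map_ofNat, map_ofNat, map_ofNat,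
      hgQ h rfl]
  have hβL : algebraMap K L (bet d h) = bet (p ^ ν + 1) g := by
    unfold bet
    rw [map_mul, map_sub, map_pow, map_one, map_ofNat, hgQ h rfl]
  have hWL : W.baseChange L = curve (aS (p ^ ν + 1) g) (bS (p ^ ν + 1) g) := by
    ext
    · exact map_zero _
    · exact map_zero _
    · exact map_zero _
    · exact hA
    · exact hB
  have hWK : W.baseChange K = curve (aS d h) (bS d h) := by
    ext
    · rfl
    · rfl
    · rfl
    · rfl
    · rfl
  have hΔL : 4 * aS (p ^ ν + 1) g ^ 3 + 27 * bS (p ^ ν + 1) g ^ 2 ≠ 0 := by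
    have h5 := (_root_.map_ne_zero (algebraMap K L)).2 hΔ
    rwa [map_add, map_mul, map_mul, map_pow, map_pow, map_ofNat, map_ofNat, hA, hB] at h5
  -- the points over `L`
  let Z : k → L := fun t => algebraMap k L t * g - 1
  have hbid : ∀ t : k, t ^ (p ^ ν + 1) = 1 → bet (p ^ ν + 1) g = -(4 * Z t *
      (1 + ((Z t) ^ m) ^ 3 + Z t * ((Z t) ^ m) ^ 3)) := fun t ht =>
    beta_identity hm (by rw [← map_pow, ht, map_one]) g
  have hns : ∀ t : k, t ^ (p ^ ν + 1) = 1 →
      (W.baseChange L).toAffine.Nonsingular (px m (Z t) + 3) (py m (Z t)) := by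
    intro t ht
    refine nons hWL h2L hΔL ?_
    rw [(td (p ^ ν + 1) g).eqn, add_sub_cancel_right]
    exact py_sq m _ _ (hbid t ht)
  let P : k → Pt W L := fun t =>
    if ht : t ^ (p ^ ν + 1) = 1 then Point.some _ _ (hns t ht) else 0
  have hP : ∀ (t : k) (ht : t ^ (p ^ ν + 1) = 1), P t = Point.some _ _ (hns t ht) :=
    fun t ht => dif_pos ht
  -- the parameter
  obtain ⟨t, htz, htQ⟩ : ∃ t : k, t ^ e * z = 1 ∧ t ^ (p ^ ν + 1) = 1 := by
    haveI : NeZero d := ⟨hd.ne'⟩
    obtain ⟨j, -, hj⟩ := hδ.eq_pow_of_pow_eq_one hz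
    have hω0 : ω ≠ 0 := hω.ne_zero (by omega)
    refine ⟨(ω ^ j)⁻¹, ?_, ?_⟩
    · rw [← hj, inv_pow, ← pow_mul, ← pow_mul, mul_comm j e]
      exact inv_mul_cancel₀ (pow_ne_zero _ hω0)
    · rw [inv_pow, ← pow_mul, mul_comm, pow_mul, hω.pow_eq_one, one_pow, inv_one]
  have ht0 : t ≠ 0 := by
    rintro rfl
    rw [zero_pow (by omega)] at htQ
    exact zero_ne_one htQ
  have htη : ∀ η ∈ nthRootsFinset e (1 : k), (t * η) ^ (p ^ ν + 1) = 1 := by
    intro η hη
    rw [mul_pow, htQ, one_mul, hed, mul_comm, pow_mul, (mem_nthRootsFinset he 1).1 hη, one_pow]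
  have hη0 : ∀ η ∈ nthRootsFinset e (1 : k), η ≠ 0 := by
    intro η hη h0
    have := (mem_nthRootsFinset he 1).1 hη
    rw [h0, zero_pow he.ne'] at this
    exact zero_ne_one this
  set R : Pt W L := ∑ η ∈ nthRootsFinset e (1 : k), P (t * η) with hR
  -- invariance
  have hinv : ∀ σ : L ≃ₐ[K] L, act W (rs K σ) R = R := by
    intro σ
    obtain ⟨η₁, hη₁, hση⟩ := hσ σ
    haveI : NeZero e := ⟨he.ne'⟩
    obtain ⟨i, -, hi⟩ := hεK.eq_pow_of_pow_eq_one hη₁
    set η₀ : k := (ω ^ d) ^ i with hη₀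
    have hη₀1 : algebraMap k K η₀ = η₁ := by rw [← hi, hη₀, map_pow]
    have hη₀e : η₀ ^ e = 1 := by
      rw [hη₀, ← pow_mul, mul_comm, pow_mul, hε.pow_eq_one, one_pow]
    have hσZ : ∀ s : k, σ (Z s) = Z (s * η₀) := by
      intro s
      show σ (algebraMap k L s * g - 1) = algebraMap k L (s * η₀) * g - 1
      rw [map_sub, map_mul, map_one, hση, hkL s, σ.commutes, hkL (s * η₀), map_mul, map_mul,
        hη₀1]
      ring
    have h5 : ∀ s : k, s ^ (p ^ ν + 1) = 1 → act W (rs K σ) (P s) = P (s * η₀) := by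
      intro s hs
      have hs' : (s * η₀) ^ (p ^ ν + 1) = 1 := by
        rw [mul_pow, hs, one_mul, hed, mul_comm, pow_mul, hη₀e, one_pow]
      rw [hP s hs, hP _ hs']
      obtain ⟨h7, h9⟩ := act_some W (rs K σ) (hns s hs)
      rw [h9]
      have e1 : (rs K σ) (px m (Z s) + 3) = px m (Z (s * η₀)) + 3 := by
        show σ (px m (Z s) + 3) = _
        unfold px
        simp only [map_add, map_neg, map_mul, map_pow, map_one, map_ofNat, hσZ]
      have e2 : (rs K σ) (py m (Z s)) = py m (Z (s * η₀)) := by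
        show σ (py m (Z s)) = _
        unfold py
        simp only [map_add, map_sub, map_mul, map_pow, map_one, map_ofNat, hσZ]
      rw [Point.some.injEq]
      exact ⟨e1, e2⟩
    rw [hR, map_sum, ← sum_shift he P hη₀e t]
    exact Finset.sum_congr rfl fun η hη => h5 _ (htη η hη)
  obtain ⟨R0, hR0⟩ := fixed_point (F := K) W R hinv
  refine ⟨R0, fun ψ hψ hψc => ?_⟩
  have hψL := ext3_mul (L := L) hψ
  have hβL0 : bet (p ^ ν + 1) g ≠ 0 := by
    rw [← hβL]
    exact (_root_.map_ne_zero _).2 hβ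
  -- comparison of the values over `K` and `L`
  have hcomp : ∀ S : Pt W K, Lm (W.baseChange L) (ext3 L ψ) 3 (bet (p ^ ν + 1) g) 3
      (act W (incl K K L) S) = Lm (W.baseChange K) ψ 3 (bet d h) 3 S := by
    intro S
    rcases S with _ | ⟨x, y, hxy⟩
    · rfl
    · obtain ⟨h7, h9⟩ := act_some W (incl K K L) hxy
      rw [h9]
      show val (ext3 L ψ) 3 (bet (p ^ ν + 1) g) (algebraMap K L x - 3) (algebraMap K L y) =
        val ψ 3 (bet d h) (x - 3) y
      have := val_alg (L := L) hL3 hψ h2K (α := 3) (β := bet d h) (x := x - 3) (y := y) hβ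
      rw [map_sub, map_ofNat, hβL] at this
      exact this
  rw [← hcomp, hR0]
  have hval : ∀ s : k, s ^ (p ^ ν + 1) = 1 →
      Lm (W.baseChange L) (ext3 L ψ) 3 (bet (p ^ ν + 1) g) 3 (P s) = ext3 L ψ (Z s) := by
    intro s hs
    have hs0 : s ≠ 0 := by
      rintro rfl
      rw [zero_pow (by omega)] at hs
      exact zero_ne_one hs
    have hZ0 : Z s ≠ 0 := fun h0 => hzt s hs0 (by
      have : algebraMap k L s * g - 1 = 0 := h0
      rw [this]
      exact isAlgebraic_zero)
    have h1Z : 1 + (Z s) ^ m ≠ 0 := by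
      intro h0
      apply hzt s hs0
      have h5 : (Z s) ^ m = algebraMap k L (-1) := by
        rw [map_neg, map_one]
        linear_combination h0
      have h7 : IsAlgebraic k ((Z s) ^ m) := by rw [h5]; exact isAlgebraic_algebraMap _
      exact h7.of_pow hm0
    rw [hP s hs]
    show val (ext3 L ψ) 3 (bet (p ^ ν + 1) g) (px m (Z s) + 3 - 3) (py m (Z s)) = _
    rw [add_sub_cancel_right]
    have e1 := py_sub m _ _ (hbid s hs)
    have h8L : (8 : L) ≠ 0 := by
      have : algebraMap k L 8 ≠ 0 := by simpa using h8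
      rwa [map_ofNat] at this
    rw [val_ne (by rw [e1]; exact mul_ne_zero (mul_ne_zero h8L hZ0) (pow_ne_zero 3 h1Z)), e1,
      hψL _ _ (mul_ne_zero h8L hZ0) (pow_ne_zero 3 h1Z), hψL.cube h1Z, add_zero,
      hψL _ _ h8L hZ0]
    have e8 : (8 : L) = algebraMap K L (algebraMap k K 8) := by rw [map_ofNat, map_ofNat]
    rw [e8, ext3_alg hL3 hψ ((_root_.map_ne_zero _).2 h8), hψc 8 h8, zero_add]
  have hsum : Lm (W.baseChange L) (ext3 L ψ) 3 (bet (p ^ ν + 1) g) 3 R =
      ∑ η ∈ nthRootsFinset e (1 : k), ext3 L ψ (Z (t * η)) := by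
    have h5 := map_sum (lmHom hWL hψL h2L hβL0 (td (p ^ ν + 1) g)) (fun η => P (t * η))
      (nthRootsFinset e (1 : k))
    refine h5.trans (Finset.sum_congr rfl fun η hη => hval _ (htη η hη))
  have hprod2 : ∀ (s : Finset k) (f : k → L), (∀ η ∈ s, f η ≠ 0) →
      ∑ η ∈ s, ext3 L ψ (f η) = ext3 L ψ (∏ η ∈ s, f η) := by
    intro s f
    induction s using Finset.induction_on with
    | empty => intro _; rw [Finset.sum_empty, Finset.prod_empty, hψL.one]
    | insert a s ha ih =>
      intro hf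
      rw [Finset.sum_insert ha, Finset.prod_insert ha, hψL _ _ (hf a (Finset.mem_insert_self _ _))
        (Finset.prod_ne_zero_iff.2 fun i hi => hf i (Finset.mem_insert_of_mem hi)),
        ih fun i hi => hf i (Finset.mem_insert_of_mem hi)]
  have hZη : ∀ η ∈ nthRootsFinset e (1 : k), Z (t * η) ≠ 0 := fun η hη h0 =>
    hzt (t * η) (mul_ne_zero ht0 (hη0 η hη)) (by
      have : algebraMap k L (t * η) * g - 1 = 0 := h0
      rw [this]
      exact isAlgebraic_zero)
  rw [hsum, hprod2 _ _ hZη]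
  obtain ⟨c, hc0, hc⟩ := prod_eta he hε (algebraMap k L t * g)
  have e5 : ∏ η ∈ nthRootsFinset e (1 : k), Z (t * η) =
      algebraMap k L c * ((algebraMap k L t * g) ^ e - 1) := by
    rw [← hc]
    refine Finset.prod_congr rfl fun η _ => ?_
    show algebraMap k L (t * η) * g - 1 = _
    rw [map_mul]
    ring
  have e7 : algebraMap k L c * ((algebraMap k L t * g) ^ e - 1) =
      algebraMap K L (algebraMap k K (c * t ^ e) * (h - algebraMap k K z)) := by
    have h9 : algebraMap k K (t ^ e) * algebraMap k K z = 1 := by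
      rw [← map_mul, htz, map_one]
    have h11 : algebraMap k K (c * t ^ e) * (h - algebraMap k K z) =
        algebraMap k K c * (algebraMap k K (t ^ e) * h - 1) := by
      rw [map_mul]
      linear_combination (-algebraMap k K c) * h9
    rw [h11, mul_pow, hg, map_mul, map_sub, map_mul, map_one, hkL, ← map_pow, hkL]
  have hhz : h - algebraMap k K z ≠ 0 := by
    intro h0
    apply hh
    rw [sub_eq_zero.1 h0]
    exact isAlgebraic_algebraMap _
  have hct : c * t ^ e ≠ 0 := mul_ne_zero hc0 (pow_ne_zero _ ht0)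
  have hct' : algebraMap k K (c * t ^ e) ≠ 0 := (_root_.map_ne_zero _).2 hct
  rw [e5, e7, ext3_alg hL3 hψ (mul_ne_zero hct' hhz), hψ _ _ hct' hhz, hψc _ hct, zero_add]

end low

end Pool.Agent.TH958.T7
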